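import Pool.Agent.Helper94.UP.Sheet

/-! # UP: the row A6 -/

set_option autoImplicit false

open scoped ZeroAtInfty ContDiff NNReal
open Set Filter Topology MeasureTheory

namespace Pool.Agent.Helper94.UP

open Pool.Agent.Helper94.UF Pool.Agent.Helper94.SR

theorem A6_le {I Z : Type*} [TopologicalSpace I] [DiscreteTopology I] [NormedAddCommGroup Z]
    [NormedSpace ℝ Z] (x : C₀(I, Z)) (n : I) :
    ‖x n‖ ≤ ‖x‖ := by
  rw [← ZeroAtInftyContinuousMap.norm_toBCF_eq_norm]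
  exact x.toBCF.norm_coe_le_norm n

theorem A6_ge {I Z : Type*} [TopologicalSpace I] [DiscreteTopology I] [NormedAddCommGroup Z]
    [NormedSpace ℝ Z] (x : C₀(I, Z)) {r : ℝ}
    (hr : 0 ≤ r) (h : ∀ n, ‖x n‖ ≤ r) : ‖x‖ ≤ r := by
  rw [← ZeroAtInftyContinuousMap.norm_toBCF_eq_norm]
  exact (BoundedContinuousFunction.norm_le hr).2 h

/-- evaluation at `n` -/
noncomputable def A6_ev {I Z : Type*} [TopologicalSpace I] [DiscreteTopology I]
    [NormedAddCommGroup Z] [NormedSpace ℝ Z] (n : I) : C₀(I, Z) →L[ℝ] Z :=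
  LinearMap.mkContinuous
    { toFun := fun x => x n
      map_add' := fun _ _ => rfl
      map_smul' := fun _ _ => rfl } 1 (fun x => by
    rw [one_mul]; exact A6_le x n)

theorem a6_gen.{u, v, w} {k : WithTop ℕ∞} {Z : Type u} [NormedAddCommGroup Z] [NormedSpace ℝ Z]
    {Γ : Type v} {I : Type w} [TopologicalSpace I] [DiscreteTopology I] (K : EK k Z Γ) :
    Nonempty (EK k C₀(I, Z) (I × Γ)) := by
  refine ⟨{ Φ := fun x p => K.Φ (x p.1) p.2 - K.Φ 0 p.2, isC0 := ?_, smooth := ?_, L := K.L,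
            L0 := K.L0, upper := ?_, c := K.c, c0 := K.c0, lower := ?_ }⟩
  · intro x t ht
    have h1 : ∀ᶠ n in Filter.cofinite, ‖x n‖ < t / K.L := by
      have h0 := x.zero_at_infty'
      rw [Filter.cocompact_eq_cofinite] at h0
      have h2 := h0.norm
      rw [norm_zero] at h2
      exact h2.eventually (gt_mem_nhds (div_pos ht K.L0))
    have h2 : {n | ¬ ‖x n‖ < t / K.L}.Finite := h1
    refine (h2.biUnion (t := fun n => (fun γ => (n, γ)) '' ({γ | t / 2 < |K.Φ (x n) γ|} ∪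
      {γ | t / 2 < |K.Φ 0 γ|})) (fun n _ => ((K.isC0 (x n) _ (half_pos ht)).union
      (K.isC0 0 _ (half_pos ht))).image _)).subset ?_
    rintro ⟨n, γ⟩ hp
    have hp' : t < |K.Φ (x n) γ - K.Φ 0 γ| := hp
    simp only [Set.mem_iUnion]
    refine ⟨n, ?_, γ, ?_, rfl⟩
    · change ¬ ‖x n‖ < t / K.L
      intro hlt
      have h3 := K.upper (x n) 0 γ
      rw [sub_zero] at h3
      rw [lt_div_iff₀ K.L0, mul_comm] at hlt
      linarith
    · by_contra hc
      rw [Set.mem_union, not_or] at hc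
      have e1 : |K.Φ (x n) γ| ≤ t / 2 := not_lt.1 hc.1
      have e2 : |K.Φ 0 γ| ≤ t / 2 := not_lt.1 hc.2
      have e3 : |K.Φ (x n) γ - K.Φ 0 γ| ≤ t := by
        rw [abs_le] at e1 e2 ⊢
        constructor <;> linarith [e1.1, e1.2, e2.1, e2.2]
      linarith
  · rintro ⟨n, γ⟩
    exact ((K.smooth γ).comp (A6_ev (I := I) (Z := Z) n).contDiff).sub contDiff_const
  · rintro x y ⟨n, γ⟩
    change |K.Φ (x n) γ - K.Φ 0 γ - (K.Φ (y n) γ - K.Φ 0 γ)| ≤ _
    rw [show K.Φ (x n) γ - K.Φ 0 γ - (K.Φ (y n) γ - K.Φ 0 γ) = K.Φ (x n) γ - K.Φ (y n) γ by ring]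
    refine (K.upper _ _ γ).trans (mul_le_mul_of_nonneg_left ?_ K.L0.le)
    exact A6_le (x - y) n
  · intro x y r hr h
    have h1 : ∀ n, K.c * ‖x n - y n‖ ≤ r := fun n => K.lower _ _ r hr (fun γ => by
      have h3 : |K.Φ (x n) γ - K.Φ 0 γ - (K.Φ (y n) γ - K.Φ 0 γ)| ≤ r := h (n, γ)
      rwa [show K.Φ (x n) γ - K.Φ 0 γ - (K.Φ (y n) γ - K.Φ 0 γ) =
        K.Φ (x n) γ - K.Φ (y n) γ by ring] at h3)
    have h2 : ‖x - y‖ ≤ r / K.c := A6_ge _ (div_nonneg hr K.c0.le) (fun n => by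
      rw [le_div_iff₀ K.c0, mul_comm]; exact h1 n)
    rwa [le_div_iff₀ K.c0, mul_comm] at h2

theorem stA6.{u, v} : ST_A6.{u, v} := fun K => a6_gen K

end Pool.Agent.Helper94.UP
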